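import Pool.Agent.Q216.ZD.Base

set_option autoImplicit false

/-!
# Project ZD, job S_COMM: commuting homeomorphisms have orbits of uniformly polynomial growth
-/

namespace Pool.Agent.Q125.ZD

open Pool.Agent.Q216.ZD
open Nat.Partrec (Code)

/-- the value of a word does not depend on the order of its letters -/
theorem act_perm {L : ℕ} {T : ℕ → R → R}
    (hc : ∀ c < L, ∀ c' < L, ∀ X, T c (T c' X) = T c' (T c X)) {w w' : List ℕ}
    (h : w.Perm w') : Wd L w → ∀ X : R, act T w X = act T w' X := by
  induction h with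
  | nil => exact fun _ _ => rfl
  | cons c _ ih =>
    intro hw X
    rw [act_cons, act_cons, ih (wd_tail hw)]
  | swap c d l =>
    intro hw X
    simp only [act_cons]
    exact hc _ (hw _ (by simp)) _ (hw _ (by simp)) _
  | trans h1 _ ih1 ih2 =>
    intro hw X
    rw [ih1 hw, ih2 (fun c hc => hw c (h1.mem_iff.2 hc))]

/-- two words with similar numbers of letters lead to points at a small distance -/
theorem near_of_counts {ps : List Code} {L : ℕ} {T : ℕ → R → R} (hA : Acts ps L T)
    (hc : ∀ c < L, ∀ c' < L, ∀ X, T c (T c' X) = T c' (T c X)) {w w' : List ℕ}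
    (hw : Wd L w) (hw' : Wd L w') {r : ℕ}
    (hr : ∑ c ∈ Finset.range L, ((w.count c - w'.count c) + (w'.count c - w.count c)) ≤ r)
    (X : R) : near L T r (act T w X) (act T w' X) := by
  classical
  obtain ⟨d, hd⟩ : ∃ d : List ℕ, (d : Multiset ℕ) = (w : Multiset ℕ) - (w' : Multiset ℕ) :=
    ⟨_, Multiset.coe_toList _⟩
  obtain ⟨d', hd'⟩ : ∃ d : List ℕ, (d : Multiset ℕ) = (w' : Multiset ℕ) - (w : Multiset ℕ) :=
    ⟨_, Multiset.coe_toList _⟩
  obtain ⟨e, he⟩ : ∃ e : List ℕ, (e : Multiset ℕ) = (w : Multiset ℕ) ∩ (w' : Multiset ℕ) :=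
    ⟨_, Multiset.coe_toList _⟩
  have h1 : w.Perm (d ++ e) := by
    rw [← Multiset.coe_eq_coe, ← Multiset.coe_add, hd, he, Multiset.sub_add_inter]
  have h2 : w'.Perm (d' ++ e) := by
    rw [← Multiset.coe_eq_coe, ← Multiset.coe_add, hd', he, Multiset.inter_comm,
      Multiset.sub_add_inter]
  have hdw : Wd L d := fun c hc => hw c (h1.mem_iff.2 (List.mem_append_left _ hc))
  have hdw' : Wd L d' := fun c hc => hw' c (h2.mem_iff.2 (List.mem_append_left _ hc))
  have hew : Wd L (d ++ e) := fun c hc => hw c (h1.mem_iff.2 hc)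
  have hlen : ∀ (l : List ℕ), Wd L l → l.length = ∑ c ∈ Finset.range L, l.count c := by
    intro l hl
    have := Multiset.sum_count_eq_card (s := Finset.range L) (m := (l : Multiset ℕ))
      (fun a ha => Finset.mem_range.2 (hl a (by simpa using ha)))
    simpa using this.symm
  have hcd : ∀ c, d.count c = w.count c - w'.count c := by
    intro c
    have := congrArg (Multiset.count c) hd
    rw [Multiset.count_sub] at this
    simpa using this
  have hcd' : ∀ c, d'.count c = w'.count c - w.count c := by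
    intro c
    have := congrArg (Multiset.count c) hd'
    rw [Multiset.count_sub] at this
    simpa using this
  refine ⟨d' ++ iv d, mem_WL.2 ⟨wd_append hdw' (wd_iv hA.ev hdw), ?_⟩, ?_⟩
  · rw [List.length_append, iv_length, hlen d hdw, hlen d' hdw', ← Finset.sum_add_distrib]
    refine le_trans (le_of_eq ?_) hr
    refine Finset.sum_congr rfl fun c _ => ?_
    rw [hcd, hcd', add_comm]
  · rw [act_perm hc h1 hw, act_perm hc h2 hw', act_append, act_append, act_append,
      act_iv_act hA hdw]

theorem t_COMM : S_COMM := by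
  intro ps L T hA hc
  refine ⟨(4 * L + 1) ^ L, ?_⟩
  intro X n g hg
  have hcnt : ∀ i c, (g i).count c ≤ 4 * 2 ^ n := fun i c =>
    (List.count_le_length).trans (mem_WL.1 (hg i)).2
  have hpos : 0 < 2 ^ n := by positivity
  have hcell : ∀ i c, (g i).count c * L / 2 ^ n < 4 * L + 1 := by
    intro i c
    rw [Nat.lt_succ_iff]
    apply Nat.div_le_of_le_mul
    calc (g i).count c * L ≤ (4 * 2 ^ n) * L := Nat.mul_le_mul_right _ (hcnt i c)
      _ = 2 ^ n * (4 * L) := by ring
  let f : Fin ((4 * L + 1) ^ L + 1) → (Fin L → Fin (4 * L + 1)) :=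
    fun i c => ⟨(g i).count (c : ℕ) * L / 2 ^ n, hcell i c⟩
  obtain ⟨i, j, hij, hf⟩ := Fintype.exists_ne_map_eq_of_card_lt f (by simp)
  refine ⟨i, j, hij, ?_⟩
  apply near_of_counts hA hc (mem_WL.1 (hg i)).1 (mem_WL.1 (hg j)).1
  rcases Nat.eq_zero_or_pos L with hL | hL
  · subst hL
    simp
  have key : ∀ c ∈ Finset.range L, (((g i).count c - (g j).count c) +
      ((g j).count c - (g i).count c)) * L ≤ 2 ^ n := by
    intro c hcL
    have hcL' := Finset.mem_range.1 hcL
    have h1 : (g i).count c * L / 2 ^ n = (g j).count c * L / 2 ^ n := by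
      have := congrFun hf ⟨c, hcL'⟩
      simpa [f] using this
    have e1 := Nat.div_add_mod ((g i).count c * L) (2 ^ n)
    have e2 := Nat.div_add_mod ((g j).count c * L) (2 ^ n)
    have m1 := Nat.mod_lt ((g i).count c * L) hpos
    have m2 := Nat.mod_lt ((g j).count c * L) hpos
    rw [h1] at e1
    rw [add_mul, Nat.sub_mul, Nat.sub_mul]
    omega
  have h3 : (∑ c ∈ Finset.range L, (((g i).count c - (g j).count c) +
      ((g j).count c - (g i).count c))) * L ≤ L * 2 ^ n := by
    rw [Finset.sum_mul]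
    calc _ ≤ ∑ c ∈ Finset.range L, 2 ^ n := Finset.sum_le_sum key
      _ = L * 2 ^ n := by simp
  rw [mul_comm L] at h3
  exact Nat.le_of_mul_le_mul_right h3 hL

end Pool.Agent.Q125.ZD
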