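import Pool.Agent.Q216.ZD.Base

set_option autoImplicit false

/-!
# Project ZD, job S_FULL: if the orbits have uniformly polynomial growth then some ball meets all
classes
-/

namespace Pool.Agent.Q125.ZD

open Pool.Agent.Q216.ZD
open Nat.Partrec (Code)

/-- among `K + 1` points of an orbit two are equivalent -/
theorem two_feq {ps : List Code} {L : ℕ} {T : ℕ → R → R} {K : ℕ} (hA : Acts ps L T)
    (hK : Packed L T K) (X : R) (g : Fin (K + 1) → List ℕ) (hg : ∀ i, Wd L (g i)) :
    ∃ i j, i ≠ j ∧ Feq L T (act T (g i) X) (act T (g j) X) := by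
  obtain ⟨n, hn⟩ : ∃ n, ∀ i, (g i).length ≤ 2 ^ n := by
    refine ⟨Finset.univ.sup fun i => (g i).length, fun i => ?_⟩
    have h1 : (g i).length ≤ Finset.univ.sup fun i => (g i).length :=
      Finset.le_sup (f := fun i => (g i).length) (Finset.mem_univ i)
    exact h1.trans Nat.lt_two_pow_self.le
  obtain ⟨i, j, hij, hn2⟩ := hK X n (fun i => wn L T (n + 1) (act T (g i) X) ++ g i) (by
    intro i
    obtain ⟨h1, h2⟩ := mem_WL.1 (wn_mem (L := L) (T := T) (n + 1) (act T (g i) X))
    refine mem_WL.2 ⟨wd_append h1 (hg i), ?_⟩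
    rw [List.length_append]
    have := hn i
    rw [pow_succ] at h2
    omega)
  refine ⟨i, j, hij, n + 1, ?_⟩
  rw [act_append, act_append, ← sn_eq, ← sn_eq] at hn2
  exact mk_disc hA (mk_sel _ _) (mk_sel _ _) hn2

theorem t_FULL : S_FULL := by
  classical
  intro ps L T K hA hK X
  -- the sizes of families of pairwise inequivalent points
  let P : ℕ → Prop := fun m => ∃ g : Fin m → List ℕ, (∀ i, Wd L (g i)) ∧
    ∀ i j, i ≠ j → ¬ Feq L T (act T (g i) X) (act T (g j) X)
  have hP0 : P 0 := ⟨fun i => i.elim0, fun i => i.elim0, fun i => i.elim0⟩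
  have hPK : ∀ m, P m → m ≤ K := by
    rintro m ⟨g, hg, hne⟩
    by_contra hc
    push Not at hc
    obtain ⟨i, j, hij, hf⟩ := two_feq hA hK X (fun i => g (Fin.castLE hc i)) (fun i => hg _)
    exact hne _ _ (fun h => hij (Fin.castLE_injective hc h)) hf
  obtain ⟨g, hg, hne⟩ : P (Nat.findGreatest P K) :=
    Nat.findGreatest_spec (P := P) (Nat.zero_le K) hP0
  refine ⟨Finset.univ.sup fun i => (g i).length, fun u hu => ?_⟩
  by_contra hc
  push Not at hc
  have hbig : P (Nat.findGreatest P K + 1) := by
    refine ⟨Fin.cons u g, fun i => ?_, fun i j hij => ?_⟩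
    · refine Fin.cases ?_ (fun i => ?_) i
      · exact hu
      · exact hg i
    · have hball : ∀ i, act T (g i) X ∈ Ball L T (Finset.univ.sup fun i => (g i).length) X :=
        fun i => ⟨g i, mem_WL.2 ⟨hg i, Finset.le_sup (f := fun i => (g i).length)
          (Finset.mem_univ i)⟩, rfl⟩
      revert hij
      refine Fin.cases ?_ (fun i => ?_) i <;> refine Fin.cases ?_ (fun j => ?_) j
      · intro h
        exact absurd rfl h
      · intro _ h
        exact hc _ (hball j) h
      · intro _ h
        exact hc _ (hball i) h.symm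
      · intro h
        exact hne i j fun e => h (congrArg Fin.succ e)
  have h1 := Nat.le_findGreatest (hPK _ hbig) hbig
  omega

end Pool.Agent.Q125.ZD
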